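import Pool.Agent.H752.SV.Stubs

/-! Task V10: the languages of the subspaces `Z_N`. -/

namespace Pool.Agent.H752.SV

open Pool.Agent.NPC Pool.Agent.H620R2.Gauge

theorem V10_zero (q : ℕ) (hq : 2 ≤ q) (m : ℕ) (h : ∀ j, dg q m j = 0) : m = 0 := by
  induction m using Nat.strong_induction_on with
  | _ m ih =>
    by_contra hm
    have h0 := h 0
    unfold dg at h0
    rw [pow_zero, Nat.div_one] at h0
    have hlt : m / q < m := Nat.div_lt_self (Nat.pos_of_ne_zero hm) (by omega)
    have h1 : m / q = 0 := by
      apply ih (m / q) hlt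
      intro j
      have h2 := h (j + 1)
      unfold dg at h2 ⊢
      rw [pow_succ', ← Nat.div_div_eq_div_mul] at h2
      exact h2
    have h3 := Nat.div_add_mod m q
    rw [h1, h0] at h3
    omega

theorem V10_lt (q : ℕ) (hq : 2 ≤ q) (n i : ℕ) (h : ∀ j, i < j → dg q n j = 0) :
    n < q ^ (i + 1) := by
  by_contra hcon
  have h1 : n / q ^ (i + 1) = 0 := by
    apply V10_zero q hq
    intro j
    have h2 := h (i + 1 + j) (by omega)
    unfold dg at h2 ⊢
    rw [pow_add, ← Nat.div_div_eq_div_mul] at h2
    exact h2
  have h2 : 0 < q ^ (i + 1) := by positivity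
  have h3 := (Nat.div_eq_zero_iff.1 h1).resolve_left h2.ne'
  exact hcon h3

theorem t_tz (h1 : St_dg) : St_tz := by
  intro F _ _ φ h0 S p r N
  have hq : 2 ≤ Fintype.card F := Fintype.one_lt_card
  obtain ⟨hdg, hsurj⟩ := h1 F φ h0
  have hne : ∀ (v : ℕ →₀ F) (i : ℕ), dg (Fintype.card F) (code φ v) i ≠ 0 ↔ v i ≠ 0 := by
    intro v i
    rw [hdg]
    constructor
    · intro h h2
      exact h (by rw [h2, h0])
    · intro h h2
      apply h
      apply φ.injective
      apply Fin.ext
      rw [h2, h0]
  have hrep : ∀ m n : ℕ, List.replicate m true = List.replicate n true → m = n := by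
    intro m n h
    have := congrArg List.length h
    simpa using this
  constructor
  · intro i
    constructor
    · intro hi v hv hvi
      by_contra hcon
      push Not at hcon
      have hlt : code φ v < Fintype.card F ^ (i + 1) := by
        apply V10_lt _ hq
        intro j hj
        by_contra h2
        exact (hne v j).1 h2 (hcon j hj)
      have hge : Fintype.card F ^ i ≤ code φ v := by
        by_contra h2
        rw [not_le] at h2
        apply (hne v i).2 hvi
        unfold dg
        rw [Nat.div_eq_of_lt h2, Nat.zero_mod]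
      exact hi _ hge hlt ⟨v, hv, rfl⟩
    · intro h m hm1 hm2 hm
      obtain ⟨v, hv, hvm⟩ := hm
      have hcode := hrep _ _ hvm
      have hpos : 0 < Fintype.card F ^ i := by positivity
      have hvi : v i ≠ 0 := by
        rw [← hne v i, ← hcode]
        unfold dg
        have a1 : 1 ≤ m / Fintype.card F ^ i := (Nat.one_le_div_iff hpos).2 hm1
        have a2 : m / Fintype.card F ^ i < Fintype.card F := by
          rw [Nat.div_lt_iff_lt_mul hpos, ← pow_succ']
          exact hm2
        rw [Nat.mod_eq_of_lt a2]
        omega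
      obtain ⟨j, hij, hvj⟩ := h v hv hvi
      rw [← hne v j, ← hcode] at hvj
      apply hvj
      unfold dg
      have a3 : m < Fintype.card F ^ j :=
        lt_of_lt_of_le hm2 (Nat.pow_le_pow_right (by omega) hij)
      rw [Nat.div_eq_of_lt a3, Nat.zero_mod]
  · have hZS : ∀ (K : Set ℕ) (l : ℕ → ℕ) (z : ℕ →₀ F),
        z ∈ ZS F K l N ↔ ∀ j, z j ≠ 0 → ∃ i ∈ K, N ≤ i ∧ l i = j := by
      intro K l z
      unfold ZS
      rw [Finsupp.mem_supported]
      constructor
      · intro h j hj
        exact h (Finsupp.mem_support_iff.2 hj)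
      · intro h j hj
        exact h j (Finsupp.mem_support_iff.1 hj)
    ext x
    constructor
    · rintro ⟨v, hv, hx⟩
      rw [SetLike.mem_coe, hZS] at hv
      exact ⟨code φ v, hx, fun j hj => hv j ((hne v j).1 hj)⟩
    · rintro ⟨n, hx, hn⟩
      obtain ⟨v, hv⟩ := hsurj n
      refine ⟨v, ?_, by rw [hv]; exact hx⟩
      rw [SetLike.mem_coe, hZS]
      intro j hj
      apply hn j
      rw [← hv]
      exact (hne v j).2 hj

end Pool.Agent.H752.SV
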