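import Pool.Agent.H752.SV.Stubs

/-! Task V3: the algebra. -/

namespace Pool.Agent.H752.SV

open Pool.Agent.NPC Pool.Agent.H620R2.Gauge

theorem t_alg : St_alg := by
  intro F _ S K l r hl hlt hpar hK hlead hZ
  have hZS : ∀ N (z : ℕ →₀ F), z ∈ ZS F K l N ↔ ∀ j, z j ≠ 0 → ∃ i ∈ K, N ≤ i ∧ l i = j := by
    intro N z
    unfold ZS
    rw [Finsupp.mem_supported]
    constructor
    · intro h j hj
      exact h (Finsupp.mem_support_iff.2 hj)
    · intro h j hj
      exact h j (Finsupp.mem_support_iff.1 hj)
  constructor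
  · intro hfin
    -- a common bound for the supports
    obtain ⟨B, hB⟩ : ∃ B : ℕ, ∀ v ∈ WS K l r S, ∀ j, v j ≠ 0 → j < B := by
      have h1 : ((fun v : ℕ →₀ F => v.support.sup id + 1) '' (WS K l r S : Set (ℕ →₀ F))).Finite :=
        hfin.image _
      obtain ⟨B, hB⟩ := h1.bddAbove
      refine ⟨B, fun v hv j hj => ?_⟩
      have h2 : v.support.sup id + 1 ≤ B := hB ⟨v, hv, rfl⟩
      have h3 : j ≤ v.support.sup id :=
        Finset.le_sup (f := id) (Finsupp.mem_support_iff.2 hj)
      omega
    obtain ⟨z, ⟨hz1, hz2⟩, hz0⟩ := (Submodule.ne_bot_iff _).1 (hZ B)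
    rw [SetLike.mem_coe, hZS] at hz1
    classical
    let f : ℕ → F := fun j => if j % 2 = r then z j else if j ∈ K then z (l j) else 0
    have hf : ∀ j, f j ≠ 0 → j ∈ z.support ∪ z.support.preimage l hl.injOn := by
      intro j hj
      rw [Finset.mem_union, Finset.mem_preimage, Finsupp.mem_support_iff, Finsupp.mem_support_iff]
      by_cases h1 : j % 2 = r
      · left
        have : f j = z j := if_pos h1
        rwa [this] at hj
      · right
        have e1 : f j = if j ∈ K then z (l j) else 0 := if_neg h1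
        rw [e1] at hj
        by_cases h2 : j ∈ K
        · rwa [if_pos h2] at hj
        · rw [if_neg h2] at hj
          exact absurd rfl hj
    let v : ℕ →₀ F := Finsupp.onFinset _ f hf
    have hv : ∀ j, v j = f j := fun j => rfl
    have hvW : v ∈ WS K l r S := by
      refine ⟨fun i hi => ?_, fun j hj hj' => ?_, ?_⟩
      · rw [hv, hv]
        have e1 : f (l i) = z (l i) := if_pos (hpar i)
        have e2 : f i = z (l i) := by
          change (if i % 2 = r then z i else if i ∈ K then z (l i) else 0) = z (l i)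
          rw [if_neg (hK i hi), if_pos hi]
        rw [e1, e2]
      · rw [hv]
        change (if j % 2 = r then z j else if j ∈ K then z (l j) else 0) = 0
        rw [if_neg hj]
        by_cases h1 : j % 2 = r
        · rw [if_pos h1]
          by_contra h2
          obtain ⟨i, hi, -, hij⟩ := hz1 j h2
          exact hj' i hi hij
        · rw [if_neg h1]
      · have e : v.filter (fun j => j % 2 = r) = z := by
          ext j
          by_cases h1 : j % 2 = r
          · rw [Finsupp.filter_apply_pos (fun j => j % 2 = r) v h1, hv]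
            exact if_pos h1
          · rw [Finsupp.filter_apply_neg (fun j => j % 2 = r) v h1]
            by_contra h2
            obtain ⟨i, hi, -, hij⟩ := hz1 j (fun h3 => h2 h3.symm)
            exact h1 (by rw [← hij]; exact hpar i)
        rw [e]
        exact hz2
    obtain ⟨j, hj⟩ : ∃ j, z j ≠ 0 := by
      by_contra hcon
      push Not at hcon
      exact hz0 (Finsupp.ext hcon)
    obtain ⟨i, hi, hBi, hij⟩ := hz1 j hj
    have h3 : v j ≠ 0 := by
      rw [hv]
      have : f j = z j := if_pos (by rw [← hij]; exact hpar i)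
      rwa [this]
    have h4 := hB v hvW j h3
    have h5 := hlt i
    omega
  · rw [eq_bot_iff]
    rintro v ⟨⟨h1, h2, h3⟩, hS⟩
    rw [Submodule.mem_bot]
    have hodd : ∀ j, j % 2 ≠ r → v j = 0 := by
      by_contra hcon
      push Not at hcon
      obtain ⟨j₀, hj₀, hvj₀⟩ := hcon
      have hd : v - v.filter (fun j => j % 2 = r) ∈ S := S.sub_mem hS h3
      obtain ⟨d, hdd⟩ : ∃ d : ℕ →₀ F, d = v - v.filter (fun j => j % 2 = r) := ⟨_, rfl⟩
      rw [← hdd] at hd
      have d1 : ∀ j, j % 2 = r → d j = 0 := by
        intro j hj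
        rw [hdd, Finsupp.sub_apply, Finsupp.filter_apply_pos (fun j => j % 2 = r) v hj, sub_self]
      have d2 : ∀ j, j % 2 ≠ r → d j = v j := by
        intro j hj
        rw [hdd, Finsupp.sub_apply, Finsupp.filter_apply_neg (fun j => j % 2 = r) v hj, sub_zero]
      have hne : d.support.Nonempty := ⟨j₀, Finsupp.mem_support_iff.2 (by rw [d2 j₀ hj₀]; exact hvj₀)⟩
      obtain ⟨i, hi⟩ : ∃ i, i = d.support.max' hne := ⟨_, rfl⟩
      have hi1 : d i ≠ 0 := by
        rw [hi]
        exact Finsupp.mem_support_iff.1 (Finset.max'_mem _ _)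
      have hi2 : i % 2 ≠ r := fun h => hi1 (d1 i h)
      have hiK : i ∈ K := by
        by_contra hiK
        have h4 := h2 i hiK fun i' _ h => hi2 (by rw [← h]; exact hpar i')
        exact hi1 (by rw [d2 i hi2, h4])
      obtain ⟨j, hij, hj⟩ := hlead i hiK d hd hi1
      have h5 : j ≤ i := by
        rw [hi]
        exact Finset.le_max' _ _ (Finsupp.mem_support_iff.2 hj)
      omega
    ext j
    rw [Finsupp.zero_apply]
    by_cases hjK : j ∈ K
    · exact hodd j (hK j hjK)
    · by_cases hex : ∃ i ∈ K, l i = j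
      · obtain ⟨i, hi, hij⟩ := hex
        rw [← hij, h1 i hi]
        exact hodd i (hK i hi)
      · push Not at hex
        exact h2 j hjK hex

end Pool.Agent.H752.SV
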