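import Pool.Agent.H752.SV.Stubs

/-! Task V9: the languages are in `NP`. -/

namespace Pool.Agent.H752.SV

open Pool.Agent.NPC Pool.Agent.H620R2.Gauge

/-- a polynomial time check of the input and its table -/
theorem V9_tab {D : Oracle} {V : List Bool → List Bool} (hV : IsFP D V)
    (hq : NPC.Poly qry) {B : List Bool × List Bool → Bool} (hB : NPC.Poly B) :
    IsFP D (fun x => [B (x, tab V x)]) := by
  have h := IsFP.votes hV ((Polynomial.X + 1) ^ 3) (Q := fun _ => []) (NPC.Poly.const _)
    (W := qry) hq (H := fun z => [B z]) (NPC.Poly.cons hB (NPC.Poly.const []))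
  refine (congrArg (IsFP D) (funext fun x => ?_)).mp h
  have e : Polynomial.eval x.length ((Polynomial.X + 1) ^ 3 : Polynomial ℕ) =
      (x.length + 1) ^ 3 := by
    simp only [Polynomial.eval_pow, Polynomial.eval_add, Polynomial.eval_X, Polynomial.eval_one]
  rw [e]
  rfl

theorem V9_np {D : Oracle} {L : Set (List Bool)} {F : List Bool → List Bool} (hF : IsFP D F)
    (h : ∀ x, x ∈ L ↔ F x = [true]) : IsNP D L := by
  refine ⟨fun y => F (unpair y).2, 0,
    IsFP.comp hF (IsFP.of_poly (NPC.Poly.snd poly_unpair)), fun x => ?_⟩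
  constructor
  · intro hx
    refine ⟨[], by simp, ?_⟩
    simp only [unpair_pairBits]
    exact (h x).1 hx
  · rintro ⟨w, -, hw⟩
    simp only [unpair_pairBits] at hw
    exact (h x).2 hw

theorem t_np (h5 : St_chk) (h6 : St_poly1) (h7 : St_poly2) (h8 : St_part) : St_np := by
  intro q hq D L hL
  obtain ⟨V, p, hV, hL⟩ := hL
  refine ⟨p, fun r => ⟨fun N => ?_, ?_⟩⟩
  · refine V9_np (V9_tab hV (h6 q p r hq).2.2.1 (h7 q p r N hq).1) fun x => ?_
    rw [← (h5 q hq p r V L hL x).1 N]
    simp
  · obtain ⟨hple, hpp⟩ := h8 q r hq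
    -- the shorter string
    have hx : NPC.Poly (fun y : List Bool => (unpair y).2) := NPC.Poly.snd poly_unpair
    have hw : NPC.Poly (fun y : List Bool => (unpair y).1) := NPC.Poly.fst poly_unpair
    have hx' : NPC.Poly (fun y : List Bool =>
        List.replicate (part q r (unpair y).2.length) true) := hpp.comp hx
    have hF1 : IsFP D (fun y => [chkW q p r ((unpair y).2, tab V (unpair y).2)]) :=
      IsFP.comp (V9_tab hV (h6 q p r hq).2.2.1 (h7 q p r 0 hq).2) (IsFP.of_poly hx)
    have hφ : NPC.Poly (fun z : List Bool × List Bool =>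
        pairBits (unpair z.1).1 (List.replicate (part q r (unpair z.1).2.length) true)) :=
      H622R2.poly_pairBits (hw.comp (NPC.Poly.fst NPC.Poly.id))
        (hx'.comp (NPC.Poly.fst NPC.Poly.id))
    have hle : NPC.Poly (fun y : List Bool => decide ((unpair y).1.length ≤
        p.eval (List.replicate (part q r (unpair y).2.length) true).length)) :=
      NPC.Poly.decide_le (NPC.Poly.length hw) (UPoly.toPoly (UPoly.eval (UPoly.length hx') p))
    have hψ : NPC.Poly (fun z : List Bool × List Bool × List Bool =>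
        [decide (z.2.1 = [true]) && (decide ((unpair z.1).1.length ≤
          p.eval (List.replicate (part q r (unpair z.1).2.length) true).length) &&
          decide (z.2.2 = [true]))]) :=
      NPC.Poly.cons (NPC.Poly.and
        (NPC.Poly.decide_eq (NPC.Poly.fst (NPC.Poly.snd NPC.Poly.id)) (NPC.Poly.const _))
        (NPC.Poly.and (hle.comp (NPC.Poly.fst NPC.Poly.id))
          (NPC.Poly.decide_eq (NPC.Poly.snd (NPC.Poly.snd NPC.Poly.id)) (NPC.Poly.const _))))
        (NPC.Poly.const [])
    have hS := IsFP.seq hF1 hV hφ hψ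
    refine ⟨_, p, hS, fun x => ?_⟩
    have hc := (h5 q hq p r V L hL x).2
    have hmono : p.eval (List.replicate (part q r x.length) true).length ≤ p.eval x.length := by
      apply eval_mono
      rw [List.length_replicate]
      exact hple _
    constructor
    · rintro ⟨hx0, hx1⟩
      obtain ⟨w, hw1, hw2⟩ := (hL _).1 hx1
      refine ⟨w, hw1.trans hmono, ?_⟩
      simp only [unpair_pairBits]
      rw [hc.2 hx0, hw2]
      simpa using hw1
    · rintro ⟨w, -, hw2⟩
      simp only [unpair_pairBits] at hw2
      simp only [List.cons.injEq, and_true, Bool.and_eq_true, decide_eq_true_eq] at hw2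
      obtain ⟨a1, a2, a3⟩ := hw2
      exact ⟨hc.1 a1, (hL _).2 ⟨w, a2, a3⟩⟩

end Pool.Agent.H752.SV
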